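import Pool.Agent.Lib.MP_a77646_co.WinMain

set_option autoImplicit false

namespace Pool.Agent.Results.MP_a77646_co.CriticalWindow

open Pool.Agent.Lib.MP_a77646_co.Win

/-- Graphs with `n` vertices and `e = n^2/4 - f n` edges, every edge in a triangle. The least
possible size of the largest book follows a staircase: it is `(1 + o(1)) n / √(w f)` with `w = 8`
for `1 ≪ f ≪ n^(2/3)` and `w = 16` for `n^(2/3) ≪ f ≪ n^(3/4)`, and it is at most that with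
`w = 32` for `n^(3/4) ≪ f ≤ n/8`. -/
theorem result (ε : ℝ) (hε : 0 < ε) : ∃ K : ℝ, 0 < K ∧ ∀ (n e : ℕ) (f w : ℝ), 0 < n → K ≤ f →
    8 * f ≤ n → (e : ℝ) = (n : ℝ) ^ 2 / 4 - f * n →
    (w = 8 ∧ K * f ^ 3 ≤ (n : ℝ) ^ 2 ∨
      w = 16 ∧ K * (n : ℝ) ^ 2 ≤ f ^ 3 ∧ K * f ^ 4 ≤ (n : ℝ) ^ 3 ∨
      w = 32 ∧ K * (n : ℝ) ^ 3 ≤ f ^ 4) →
    Avoided n e ((1 + ε) * (n / √(w * f))) ∧
      (w ≤ 16 → Forced n e ((1 - ε) * (n / √(w * f)))) := by
  obtain ⟨δ, h0, h1, h2⟩ : ∃ δ : ℝ, 0 < δ ∧ δ ≤ 1 / 2400 ∧ 600 * δ ≤ ε :=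
    ⟨min ε (1 / 4) / 600, by positivity, by linarith [min_le_right ε (1 / 4)],
      by linarith [min_le_left ε (1 / 4)]⟩
  have monoF : ∀ (n e : ℕ) (y : ℝ), Forced n e ((1 - 600 * δ) * (n / √y)) →
      Forced n e ((1 - ε) * (n / √y)) := fun n e y h G g1 g2 => by
    obtain ⟨u, v, huv, h3⟩ := h G g1 g2
    exact ⟨u, v, huv, le_trans (mul_le_mul_of_nonneg_right (by linarith) (by positivity)) h3⟩
  have monoA : ∀ (n e : ℕ) (y : ℝ), Avoided n e ((1 + δ) * (n / √y)) →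
      Avoided n e ((1 + ε) * (n / √y)) := by
    rintro n e y ⟨G, g1, g2⟩
    exact ⟨G, g1, fun u v huv => ⟨(g2 u v huv).1, (g2 u v huv).2.trans
      (mul_le_mul_of_nonneg_right (by linarith) (by positivity))⟩⟩
  have hK : 0 < 14000 / δ ^ 8 := by positivity
  have hp : ∀ j : ℕ, j ≤ 8 → δ ^ 8 ≤ δ ^ j := fun j hj =>
    pow_le_pow_of_le_one h0.le (by linarith) hj
  have up : ∀ (j : ℕ) (x y : ℝ), j ≤ 8 → 0 ≤ y → 14000 / δ ^ 8 * x ≤ y →
      14000 * x ≤ δ ^ j * y := fun j x y hj hy h => by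
    rw [div_mul_eq_mul_div, div_le_iff₀ (by positivity)] at h
    linarith [mul_le_mul_of_nonneg_right (hp j hj) hy]
  refine ⟨14000 / δ ^ 8, hK, fun n e f w hn hKf hfn he hw => ?_⟩
  have hf : 0 < f := hK.trans_le hKf
  have p3 : 0 ≤ f ^ 3 := by positivity
  have p4 : 0 ≤ f ^ 4 := by positivity
  have q2 : (0 : ℝ) ≤ (n : ℝ) ^ 2 := by positivity
  have q3 : (0 : ℝ) ≤ (n : ℝ) ^ 3 := by positivity
  have b1 := up 2 1 f (by norm_num) hf.le (by linarith)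
  rcases hw with ⟨rfl, a2⟩ | ⟨rfl, a1, a2⟩ | ⟨rfl, a1⟩
  · have b3 := up 4 _ _ (by norm_num) q2 a2
    exact ⟨monoA n e _ (upperA h0 (by linarith) he (by linarith) hfn), fun _ =>
      monoF n e _ (lowerA h0 (by linarith) hn he (by linarith) (by linarith))⟩
  · have b2 := up 2 _ _ (by norm_num) p3 a1
    have b3 := up 8 _ _ (by norm_num) q3 a2
    exact ⟨monoA n e _ (upperB h0 (by linarith) hn he (by linarith) hfn), fun _ =>
      monoF n e _ (lowerB h0 (by linarith) hn he (by linarith) (by linarith))⟩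
  · exact ⟨monoA n e _ (upperC h0 (by linarith) hn hf he (up 6 _ _ (by norm_num) p4 a1) hfn),
      fun h => absurd h (by norm_num)⟩

end Pool.Agent.Results.MP_a77646_co.CriticalWindow
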