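import Pool.Agent.Lib.MP_a77646_co.WinExp

set_option autoImplicit false

namespace Pool.Agent.Results.MP_a77646_co.ExponentThree

open Pool.Agent.Lib.MP_a77646_co.Win Real

/-- Graphs with `n` vertices and `e = n^2/4 - f n` edges, every edge in a triangle, have a book
of size at least `c min (n / √f, max ((n/f)^s, min (n^(4/3)/f, (n/f)^3)))` for every `s < 18/7`. -/
theorem result (s : ℝ) (hs : s < 18 / 7) : ∃ c : ℝ, 0 < c ∧ ∀ (n e : ℕ) (f : ℝ), 1 ≤ f →
    8 * f ≤ n → (e : ℝ) = (n : ℝ) ^ 2 / 4 - f * n →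
    Forced n e (c * min (n / √f)
      (max ((n / f) ^ s) (min ((n : ℝ) ^ ((4 : ℝ) / 3) / f) ((n / f) ^ 3)))) := by
  obtain ⟨c1, p1, h1⟩ := shannon s hs
  obtain ⟨c2, p2, h2⟩ := cube
  refine ⟨min c1 c2, lt_min p1 p2, fun n e f hf hfn he => ?_⟩
  have hf0 : 0 < f := by linarith
  rcases le_total ((n / f) ^ s) (min ((n : ℝ) ^ ((4 : ℝ) / 3) / f) ((n / f) ^ 3)) with h | h
  · rw [max_eq_right h]
    exact (h2 n e f hf hfn he).mono
      (mul_le_mul_of_nonneg_right (min_le_right _ _) (by positivity))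
  · rw [max_eq_left h]
    exact (h1 n e f hf hfn he).mono
      (mul_le_mul_of_nonneg_right (min_le_left _ _) (by positivity))

/-- The exponent `s < 18/7` on the whole range. -/
theorem eighteen_sevenths (s : ℝ) (hs : s < 18 / 7) : ∃ c : ℝ, 0 < c ∧ ∀ (n e : ℕ) (f : ℝ),
    1 ≤ f → 8 * f ≤ n → (e : ℝ) = (n : ℝ) ^ 2 / 4 - f * n →
    Forced n e (c * min (n / √f) ((n / f) ^ s)) :=
  (result s hs).imp fun _ h => ⟨h.1, fun n e f hf hfn he => (h.2 n e f hf hfn he).mono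
    (mul_le_mul_of_nonneg_left (min_le_min_left _ (le_max_left _ _)) h.1.le)⟩

/-- The exponent `3` for `f ≥ n^(5/6)`. -/
theorem three : ∃ c : ℝ, 0 < c ∧ ∀ (n e : ℕ) (f : ℝ), (n : ℝ) ^ 5 ≤ f ^ 6 → 1 ≤ f → 8 * f ≤ n →
    (e : ℝ) = (n : ℝ) ^ 2 / 4 - f * n → Forced n e (c * (n / f) ^ 3) := by
  obtain ⟨c, c0, h⟩ := result 0 (by norm_num)
  refine ⟨c, c0, fun n e f h5 hf hfn he => (h n e f hf hfn he).mono
    (mul_le_mul_of_nonneg_left ?_ c0.le)⟩
  have hf0 : 0 < f := by linarith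
  have hn0 : (0 : ℝ) < n := by linarith
  have h1 : (n / f) ^ 3 ≤ (n : ℝ) ^ ((4 : ℝ) / 3) / f := by
    refine le_of_pow_le_pow_left₀ three_ne_zero (by positivity) ?_
    rw [div_pow (_ ^ _ : ℝ), ← rpow_natCast ((n : ℝ) ^ ((4 : ℝ) / 3)), ← rpow_mul hn0.le,
      show (4 : ℝ) / 3 * (3 : ℕ) = (4 : ℕ) by norm_num, rpow_natCast, ← pow_mul, div_pow,
      div_le_div_iff₀ (by positivity) (by positivity)]
    exact (le_of_eq (by ring)).trans ((mul_le_mul_of_nonneg_left h5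
      (show 0 ≤ (n : ℝ) ^ 4 * f ^ 3 by positivity)).trans_eq (by ring))
  have h2 : (n / f) ^ 3 ≤ n / √f := by
    refine le_of_pow_le_pow_left₀ two_ne_zero (by positivity) ?_
    rw [div_pow (n : ℝ) √f, sq_sqrt hf0.le, ← pow_mul, div_pow,
      div_le_div_iff₀ (by positivity) (by positivity)]
    have h3 : (n : ℝ) ^ 4 * f ≤ f ^ 6 := by
      nlinarith [mul_le_mul_of_nonneg_left (show f ≤ n by linarith) (pow_pos hn0 4).le]
    exact (le_of_eq (by ring)).trans ((mul_le_mul_of_nonneg_left h3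
      (sq_nonneg (n : ℝ))).trans_eq (by ring))
  exact le_min h2 (le_max_of_le_right (le_min h1 le_rfl))

end Pool.Agent.Results.MP_a77646_co.ExponentThree
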