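import Pool.Agent.Lib.MP_a77646_co.TowMain

set_option autoImplicit false

namespace Pool.Agent.Results.MP_a77646_co.TowerLower

open Pool.Agent.Lib.MP_a77646_co.Tow
open scoped Classical

/-- A graph on `n ≥ T_j` vertices (`T_0 = 1`, `T_(j+1) = 2 ^ T_j`) with at least `c n ^ 2` edges,
each in a triangle, has an edge in at least `j ^ ((1 - ε) j)` triangles. -/
theorem result (c ε : ℝ) (hc : 0 < c) (hε : 0 < ε) : ∃ j₀ : ℕ, ∀ j : ℕ, j₀ ≤ j → ∀ n : ℕ,
    (fun x : ℕ => 2 ^ x)^[j] 1 ≤ n → ∀ G : SimpleGraph (Fin n),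
      c * (n : ℝ) ^ 2 ≤ G.edgeSet.ncard →
      (∀ u v, G.Adj u v → 1 ≤ (G.commonNeighbors u v).ncard) →
      ∃ u v, G.Adj u v ∧ (j : ℝ) ^ ((1 - ε) * j) ≤ (G.commonNeighbors u v).ncard := by
  obtain ⟨j₀, h⟩ := Filter.eventually_atTop.1 (main (γ := min c 1) (ε := min ε 1)
    (lt_min hc one_pos) (min_le_right _ _) (lt_min hε one_pos) (min_le_right _ _))
  refine ⟨j₀ + 1, fun j hj n hn G hE h1 => ?_⟩
  have hj1 : (1 : ℝ) ≤ j := by exact_mod_cast (by omega : 1 ≤ j)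
  have hz : ∀ a : Fin n × Fin n, ∃ w, G.Adj a.1 a.2 → G.Adj a.1 w ∧ G.Adj a.2 w := fun a => by
    by_cases ha : G.Adj a.1 a.2
    · obtain ⟨w, hw⟩ := Set.nonempty_of_ncard_ne_zero (Nat.one_le_iff_ne_zero.1 (h1 _ _ ha))
      exact ⟨w, fun _ => hw⟩
    · exact ⟨a.1, fun b => absurd b ha⟩
  choose z hz using hz
  by_contra hcon
  refine h j (by omega) n G.Adj z hn ?_ ⟨fun _ _ => G.adj_symm, hz, fun x y a => ?_,
    Real.one_le_rpow hj1 (mul_nonneg (sub_nonneg.2 (min_le_right _ _)) (by positivity))⟩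
  · refine (mul_le_mul_of_nonneg_right (min_le_left _ _) (sq_nonneg _)).trans
      (hE.trans (Nat.cast_le.2 ?_))
    rw [← Set.ncard_coe_finset]
    refine le_trans (Set.ncard_le_ncard (t := (fun a : Fin n × Fin n => s(a.1, a.2)) ''
      (ed G.Adj : Set (Fin n × Fin n))) (fun e he => ?_)) Set.ncard_image_le
    induction e using Sym2.ind with
    | _ u v => exact ⟨(u, v), Finset.mem_coe.2 (mem_ed.2 he), rfl⟩
  · have e : G.commonNeighbors x y = ↑(Finset.univ.filter fun w => G.Adj x w ∧ G.Adj y w) := by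
      ext w; simp [SimpleGraph.mem_commonNeighbors]
    have b : ((G.commonNeighbors x y).ncard : ℝ) < (j : ℝ) ^ ((1 - ε) * j) :=
      not_le.1 fun b => hcon ⟨x, y, a, b⟩
    rw [e, Set.ncard_coe_finset] at b
    refine le_trans (by convert b.le) (Real.rpow_le_rpow_of_exponent_le hj1 ?_)
    exact mul_le_mul_of_nonneg_right (by linarith [min_le_left ε 1]) (by positivity)

end Pool.Agent.Results.MP_a77646_co.TowerLower
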