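import Mathlib
import Pool.Agent.Lib.MP_a77646_co.Main

set_option autoImplicit false

namespace Pool.Agent.Results.MP_a77646_co.TwoThirdsExponent

/-- For `0 < c < 1/4`, `f(n,c) ≤ exp (63 (log n)^(2/3) (log log n)^(1/3))` for all large `n`. -/
theorem result (c : ℝ) (hc0 : 0 < c) (hc : c < 1 / 4) : ∃ n₀ : ℕ, ∀ n : ℕ, n₀ ≤ n → ∀ e : ℕ,
    |(e : ℝ) - c * (n : ℝ) ^ 2| ≤ 1 → ∃ G : SimpleGraph (Fin n), G.edgeSet.ncard = e ∧
      ∀ u v, G.Adj u v → 1 ≤ (G.commonNeighbors u v).ncard ∧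
        ((G.commonNeighbors u v).ncard : ℝ) ≤ Real.exp (63 *
          (Real.log n ^ (2 / 3 : ℝ) * Real.log (Real.log n) ^ (1 / 3 : ℝ))) :=
  Pool.Agent.Lib.MP_a77646_co.main c hc0 hc

end Pool.Agent.Results.MP_a77646_co.TwoThirdsExponent
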